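import Pool.Agent.Dij.Flow

/-!
Many disjoint dijoins inside of the weight-one arcs if these arcs, or a connected part of them, can
be nearly balanced with respect to a root. The case of few vertices of odd degree and the idea of
virtual pairs come from note 3581 of helper80.
-/

open Pool.Agent.Dij

namespace Pool.Agent.Results.MP_d1d15e_co.NearlyBalanced

theorem result {V A : Type*} [Fintype V] [DecidableEq V] [Fintype A] [DecidableEq A]
    (tail head : A → V) (S : Finset A) (τ : ℕ)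
    (hdicut : ∀ U : Finset V, U.Nonempty → U ≠ Finset.univ →
      (∀ a : A, head a ∈ U → tail a ∈ U) →
      τ ≤ (S.filter (fun a => tail a ∈ U ∧ head a ∉ U)).card)
    (r : V) (p : ℕ)
    (h : (∃ (κ q : ℝ) (φ : A → ℝ), 1 ≤ κ ∧ (∀ a ∈ S, 1 ≤ |φ a| ∧ |φ a| ≤ κ) ∧
          (∀ U : Finset V, U.Nonempty → U ≠ Finset.univ → (∀ a : A, head a ∈ U → tail a ∈ U) →
            (r ∉ U → - q ≤ ∑ a ∈ S.filter (fun a => tail a ∈ U ∧ head a ∉ U), φ a) ∧
            (r ∈ U → ∑ a ∈ S.filter (fun a => tail a ∈ U ∧ head a ∉ U), φ a ≤ q)) ∧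
          (κ + 1) * p + q < τ + κ + 1) ∨
      ∃ (H : Finset A) (l m q : ℕ) (P : Fin l → V × V), H ⊆ S ∧
          (∀ W : Finset V, r ∉ W →
            (W.filter fun v => Odd ((H.filter fun a => tail a = v).card +
              (H.filter fun a => head a = v).card +
              ∑ i, ((if (P i).1 = v then 1 else 0) + (if (P i).2 = v then 1 else 0)))).card ≤
            (H.filter fun a => ¬ (tail a ∈ W ↔ head a ∈ W)).card +
              (Finset.univ.filter fun i => ¬ ((P i).1 ∈ W ↔ (P i).2 ∈ W)).card + 2 * m) ∧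
          (∀ U : Finset V, U.Nonempty → U ≠ Finset.univ → (∀ a : A, head a ∈ U → tail a ∈ U) →
            (Finset.univ.filter fun i => ¬ ((P i).1 ∈ U ↔ (P i).2 ∈ U)).card ≤ q) ∧
          ((H = S ∧ 2 * p + q + m ≤ τ + 1) ∨
            ((∀ x y : V, Relation.ReflTransGen (fun u v => ∃ a ∈ H,
              (tail a = u ∧ head a = v) ∨ (tail a = v ∧ head a = u)) x y) ∧
              4 * p + q + m ≤ τ + 3))) :
    ∃ J : Fin p → Finset A, (∀ i, J i ⊆ S) ∧ (∀ i j, i ≠ j → Disjoint (J i) (J j)) ∧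
      ∀ i, ∀ U : Finset V, U.Nonempty → U ≠ Finset.univ → (∀ a, head a ∈ U → tail a ∈ U) →
        ∃ a ∈ J i, tail a ∈ U ∧ head a ∉ U := by
  rcases h with ⟨κ, q, φ, h0, h1, h2, h3⟩ | ⟨H, l, m, q, P, hH, h1, h2, ⟨h3, h4⟩ | ⟨h3, h4⟩⟩
  · exact flow_pack S τ hdicut r κ q h0 p φ h1 h2 h3
  · subst h3
    exact orient_pack H τ hdicut r l m q p P h1 h2 h4
  · exact connected_pack S τ hdicut r H hH h3 l m q p P h1 h2 h4

end Pool.Agent.Results.MP_d1d15e_co.NearlyBalanced
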