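import Pool.Agent.Dij.Basic

/-!
Decomposition of the weight-one arcs into dijoins if one vertex is reached from the tails of all
weight-one arcs.
-/

open Pool.Agent.Dij

namespace Pool.Agent.Results.MP_d1d15e_co.Rooted

theorem result {V A : Type*} [Fintype V] [DecidableEq V] [Fintype A] [DecidableEq A]
    (tail head : A → V) (S : Finset A) (τ : ℕ) (hτ : 1 ≤ τ)
    (hdicut : ∀ U : Finset V, U.Nonempty → U ≠ Finset.univ →
      (∀ a : A, head a ∈ U → tail a ∈ U) →
      τ ≤ (S.filter (fun a => tail a ∈ U ∧ head a ∉ U)).card)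
    (r : V) (hroot : ∀ a ∈ S, Reach tail head (tail a) r)
    (hsink : ∀ B : Finset V, IsSink tail head B → r ∉ B → ∀ X ⊆ into tail head S B, 2 ≤ X.card →
      (∀ a ∈ X, ∀ a' ∈ X, a ≠ a' →
        ¬ ∃ z, Reach tail head z (tail a) ∧ Reach tail head z (tail a')) →
      (∃ b, tail b ∉ B ∧ head b ∈ B ∧ ∀ a ∈ X, ¬ Reach tail head (tail b) (tail a)) →
      (τ - 1) * X.card + 1 ≤ (into tail head S B).card) :
    ∃ f : A → Fin τ, ∀ i : Fin τ, ∀ U : Finset V, U.Nonempty → U ≠ Finset.univ →
      (∀ a : A, head a ∈ U → tail a ∈ U) →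
      ∃ a ∈ S, f a = i ∧ tail a ∈ U ∧ head a ∉ U := by
  classical
  obtain ⟨k, rfl⟩ : ∃ k, τ = k + 1 := ⟨τ - 1, by omega⟩
  obtain ⟨J, hJS, hJd, hJm⟩ := packing (tail := tail) (head := head) r (k + 1) S (by
    intro U hU
    refine hdicut U hU.1 (fun h => hU.2.1 (h ▸ Finset.mem_univ r)) hU.2.2)
  -- the sink components
  have hblock : ∀ B : Finset V, IsSink tail head B → r ∉ B → ∃ g : A → Fin (k + 1),
      (∀ e, ∀ i, e ∈ J i → g e = i) ∧ ∀ i, ∃ e ∈ into tail head S B, g e = i := by
    intro B hB hr
    have hE : k + 1 ≤ (into tail head S B).card := by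
      have h1 := hdicut Bᶜ ⟨r, Finset.mem_compl.2 hr⟩ (fun h => by
          have := hB.1
          rw [Finset.compl_eq_univ_iff] at h
          rw [h] at this
          exact Finset.not_nonempty_empty this) (fun a ha => by
          rw [Finset.mem_compl] at ha ⊢
          exact fun h => ha (hB.2.1 a h))
      refine h1.trans (Finset.card_le_card fun a ha => ?_)
      rw [Finset.mem_filter, Finset.mem_compl, Finset.mem_compl, not_not] at ha
      exact mem_into.2 ha
    have hinto : ∀ i, into tail head S B ∩ J i = into tail head (J i) B := by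
      intro i
      ext a
      rw [Finset.mem_inter, mem_into, mem_into]
      exact ⟨fun h => ⟨h.2, h.1.2⟩, fun h => ⟨⟨hJS i h.1, h.2⟩, h.1⟩⟩
    by_cases hbig : ∃ i, 2 ≤ (into tail head (J i) B).card
    · -- the largest class
      obtain ⟨i0, _, hi0⟩ := Finset.exists_max_image (Finset.univ : Finset (Fin (k + 1)))
        (fun i => (into tail head (J i) B).card) Finset.univ_nonempty
      obtain ⟨i, hi⟩ := hbig
      have h2 : 2 ≤ (into tail head (J i0) B).card := hi.trans (hi0 i (Finset.mem_univ i))
      obtain ⟨h3, h4⟩ := block (hJm i0) hB hr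
      have h5 := hsink B hB hr (into tail head (J i0) B) (by
        rw [← hinto]; exact Finset.inter_subset_left) h2 h3
        (h4 (Finset.card_pos.1 (by omega)))
      refine complete k (into tail head S B) J hJd (into tail head (J i0) B).card (by omega)
        (fun i => ?_) (by simpa using h5)
      rw [hinto]
      exact hi0 i (Finset.mem_univ i)
    · push Not at hbig
      refine complete k (into tail head S B) J hJd 1 le_rfl (fun i => ?_) (by omega)
      rw [hinto]
      have := hbig i
      omega
  choose! g hg1 hg2 using hblock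
  -- the colouring
  let P : A → Finset V → Prop := fun a B => IsSink tail head B ∧ r ∉ B ∧ head a ∈ B
  let f : A → Fin (k + 1) := fun a =>
    if h : ∃ B, P a B then g h.choose a else if h' : ∃ i, a ∈ J i then h'.choose else 0
  have hfJ : ∀ i, ∀ a ∈ J i, f a = i := by
    intro i a ha
    by_cases h : ∃ B, P a B
    · have h1 : f a = g h.choose a := dif_pos h
      rw [h1]
      exact hg1 _ h.choose_spec.1 h.choose_spec.2.1 a i ha
    · have h' : ∃ i, a ∈ J i := ⟨i, ha⟩
      have h1 : f a = h'.choose := by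
        simp only [f, dif_neg h, dif_pos h']
      rw [h1]
      by_contra hne
      exact Finset.disjoint_left.1 (hJd _ _ hne) h'.choose_spec ha
  have hfB : ∀ B, IsSink tail head B → r ∉ B → ∀ a, head a ∈ B → f a = g B a := by
    intro B hB hr a ha
    have h : ∃ B, P a B := ⟨B, hB, hr, ha⟩
    have h1 : f a = g h.choose a := dif_pos h
    rw [h1, sink_unique h.choose_spec.1 hB h.choose_spec.2.2 ha]
  refine ⟨f, fun i U hUne hUu hU => ?_⟩
  by_cases hr : r ∈ U
  · -- a sink component outside of `U`
    obtain ⟨B, hBU, hB⟩ := exists_sink (tail := tail) (head := head) _ Uᶜ rfl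
      (by
        rw [Finset.nonempty_iff_ne_empty]
        exact fun h => hUu ((Finset.compl_eq_empty_iff U).1 h))
      (by
        intro a ha
        rw [Finset.mem_compl] at ha ⊢
        exact fun h => ha (hU a h))
    have hrB : r ∉ B := fun h => (Finset.mem_compl.1 (hBU h)) hr
    obtain ⟨e, he, hei⟩ := hg2 B hB hrB i
    rw [mem_into] at he
    refine ⟨e, he.1, ?_, ?_, ?_⟩
    · rw [hfB B hB hrB e he.2.2, hei]
    · exact closed_reach hU (hroot e he.1) hr
    · exact Finset.mem_compl.1 (hBU he.2.2)
  · obtain ⟨e, he⟩ := (hJm i).1 U ⟨hUne, hr, hU⟩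
    rw [mem_out] at he
    exact ⟨e, hJS i he.1, hfJ i e he.1, he.2⟩

end Pool.Agent.Results.MP_d1d15e_co.Rooted
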