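import Pool.Agent.Dhub.Sys
import Pool.Agent.Dhub.Colour

/-!
# Decomposition of the weight-one arcs into dijoins if they have two hubs

Let every nonempty proper vertex set without entering arcs be left by at least `τ` arcs of `S`. Let `u`, `v` be vertices
such that every arc of `S` has an end in `{u, v}`, or, more generally, such that the arcs of `S` which enter a sink component without `u`, `v` have their tails in the strong component of `u`
or `v`, the arcs of `S` which leave a source component without `u`, `v` have their heads there, and, if neither of `u`,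
`v` reaches the other, every arc of `S` is on a directed cycle, or its tail is reached from `u` or `v`, or its head
reaches `u` or `v`. Then `S` can be partitioned into `τ` dijoins.
-/

set_option linter.unusedSectionVars false

open Pool.Agent.Dij Pool.Agent.Dhub

namespace Pool.Agent.Results.MP_d1d15e_co.TwoHubs

variable {V A : Type*} [Fintype V] [DecidableEq V] [Fintype A] [DecidableEq A]

/-- `x` and `y` are in the same strong component. -/
def Strong (tail head : A → V) (x y : V) : Prop :=
  Reach tail head x y ∧ Reach tail head y x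

theorem Strong.rev {tail head : A → V} {x y : V} (h : Strong tail head x y) :
    Strong head tail x y :=
  ⟨reach_rev h.2, reach_rev h.1⟩

/-- The arcs of `S` entering a sink component without `u`, `v`. -/
def Grp (tail head : A → V) (S : Finset A) (u v : V) (E : Finset A) : Prop :=
  ∃ T : Finset V, IsSink tail head T ∧ u ∉ T ∧ v ∉ T ∧ E = into tail head S T

/-- The arcs of `S` entering a sink component without `u`, `v` have their tails in the strong component of `u` or `v`. -/
def SinkHubs (tail head : A → V) (S : Finset A) (u v : V) : Prop :=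
  ∀ T : Finset V, IsSink tail head T → u ∉ T → v ∉ T → ∀ a ∈ into tail head S T,
    Strong tail head (tail a) u ∨ Strong tail head (tail a) v

theorem SinkHubs.swap {tail head : A → V} {S : Finset A} {u v : V}
    (h : SinkHubs tail head S u v) : SinkHubs tail head S v u :=
  fun T hT hv hu a ha => (h T hT hu hv a ha).symm

theorem Grp.swap {tail head : A → V} {S : Finset A} {u v : V} {E : Finset A}
    (h : Grp tail head S u v E) : Grp tail head S v u E := by
  obtain ⟨T, hT, hu, hv, h⟩ := h
  exact ⟨T, hT, hv, hu, h⟩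

theorem grp_tail {tail head : A → V} {S : Finset A} {u v : V} (hcov : SinkHubs tail head S u v)
    {E : Finset A} (hE : Grp tail head S u v E) {e : A} (he : e ∈ E) :
    Strong tail head (tail e) u ∨ Strong tail head (tail e) v := by
  obtain ⟨T, hT, hu, hv, rfl⟩ := hE
  exact hcov T hT hu hv e he

theorem grp_unique {tail head : A → V} {S : Finset A} {u v : V} {E E' : Finset A}
    (hE : Grp tail head S u v E) (hE' : Grp tail head S u v E') {e : A} (he : e ∈ E)
    (he' : e ∈ E') : E = E' := by
  obtain ⟨T, hT, -, -, rfl⟩ := hE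
  obtain ⟨T', hT', -, -, rfl⟩ := hE'
  rw [sink_unique hT hT' (mem_into.1 he).2.2 (mem_into.1 he').2.2]

/-- no arc is in a group of sink type and in a group of source type -/
theorem grp_cross {tail head : A → V} {S : Finset A} {u v : V} (hcov : SinkHubs tail head S u v)
    {E E' : Finset A} (hE : Grp tail head S u v E) (hE' : Grp head tail S u v E') {e : A}
    (he : e ∈ E) (he' : e ∈ E') : False := by
  obtain ⟨T', hT', hu, hv, rfl⟩ := hE'
  have h1 := (mem_into.1 he').2.2
  rcases grp_tail hcov hE he with h | h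
  · exact hu (closed_reach hT'.2.1 h.2 h1)
  · exact hv (closed_reach hT'.2.1 h.2 h1)

theorem grp_card_le {tail head : A → V} {S : Finset A} {u v : V} (hcov : SinkHubs tail head S u v)
    {E : Finset A} (hE : Grp tail head S u v E) {J : Finset A} (hJ : MinSep tail head u v J) :
    (E ∩ J).card ≤ 1 := by
  rw [Finset.card_le_one]
  intro e he e' he'
  rw [Finset.mem_inter] at he he'
  have h1 := (grp_tail hcov hE he.1).resolve_right (fun h => (hJ.not_reach he.2).1 h.2)
  have h2 := (grp_tail hcov hE he'.1).resolve_right (fun h => (hJ.not_reach he'.2).1 h.2)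
  exact hJ.uniq_tail he.2 he'.2 h1.1 h2.1

theorem grp_single {tail head : A → V} {S : Finset A} {u v : V} (hcov : SinkHubs tail head S u v)
    {E : Finset A} (hE : Grp tail head S u v E) {J K : Finset A} (hJ : MinSep tail head u v J)
    (hK : MinSep tail head v u K) (h1 : (E ∩ J).Nonempty) (h2 : (E ∩ K).Nonempty) : J ⊆ E := by
  obtain ⟨e, he⟩ := h1
  obtain ⟨e', he'⟩ := h2
  rw [Finset.mem_inter] at he he'
  have h3 := (grp_tail hcov hE he.1).resolve_right (fun h => (hJ.not_reach he.2).1 h.2)
  have h4 := (grp_tail hcov hE he'.1).resolve_left (fun h => (hK.not_reach he'.2).1 h.2)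
  have h5 : J = {e} := by
    refine hJ.single he.2 (fun U hU => ⟨closed_reach hU.2.2 h3.1 hU.1, fun h => hU.2.1 ?_⟩)
    obtain ⟨T, hT, -, -, rfl⟩ := hE
    have h6 := hT.2.2 _ (mem_into.1 he'.1).2.2 _ (mem_into.1 he.1).2.2
    have h7 : head e' ∈ U := closed_reach hU.2.2 h6 h
    exact closed_reach hU.2.2 h4.2 (hU.2.2 e' h7)
  rw [h5, Finset.singleton_subset_iff]
  exact he.1

theorem general {V A : Type*} [Fintype V] [DecidableEq V] [Fintype A] [DecidableEq A]
    (tail head : A → V) (S : Finset A) (τ : ℕ) (hτ : 1 ≤ τ)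
    (hdicut : ∀ U : Finset V, U.Nonempty → U ≠ Finset.univ →
      (∀ a : A, head a ∈ U → tail a ∈ U) →
      τ ≤ (S.filter (fun a => tail a ∈ U ∧ head a ∉ U)).card)
    (u v : V)
    (hsink : ∀ T : Finset V, IsSink tail head T → u ∉ T → v ∉ T → ∀ a ∈ S,
      tail a ∉ T → head a ∈ T → Strong tail head (tail a) u ∨ Strong tail head (tail a) v)
    (hsource : ∀ T : Finset V, IsSink head tail T → u ∉ T → v ∉ T → ∀ a ∈ S,
      tail a ∈ T → head a ∉ T → Strong tail head (head a) u ∨ Strong tail head (head a) v)
    (hmid : Reach tail head u v ∨ Reach tail head v u ∨ ∀ a ∈ S,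
      Reach tail head (head a) (tail a) ∨ Reach tail head u (tail a) ∨
        Reach tail head v (tail a) ∨ Reach tail head (head a) u ∨ Reach tail head (head a) v) :
    ∃ f : A → Fin τ, ∀ i : Fin τ, ∀ U : Finset V, U.Nonempty → U ≠ Finset.univ →
      (∀ a : A, head a ∈ U → tail a ∈ U) →
      ∃ a ∈ S, f a = i ∧ tail a ∈ U ∧ head a ∉ U := by
  classical
  obtain ⟨k, rfl⟩ : ∃ k, τ = k + 1 := ⟨τ - 1, by omega⟩
  have hcov : SinkHubs tail head S u v := fun T hT hu hv a ha => by
    rw [mem_into] at ha
    exact hsink T hT hu hv a ha.1 ha.2.1 ha.2.2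
  have hcov' : SinkHubs head tail S u v := fun T hT hu hv a ha => by
    rw [mem_into] at ha
    exact (hsource T hT hu hv a ha.1 ha.2.2 ha.2.1).imp (fun h => h.rev) fun h => h.rev
  have hne : ∀ (U : Finset V) (x : V), x ∉ U → U ≠ Finset.univ :=
    fun U x hx h => hx (h ▸ Finset.mem_univ x)
  obtain ⟨J, hJS, hJd, hJm⟩ := packSep (tail := tail) (head := head) u v (k + 1) S
    (fun U hU => hdicut U ⟨u, hU.1⟩ (hne U v hU.2.1) hU.2.2)
  obtain ⟨K, hKS, hKd, hKm⟩ := packSep (tail := tail) (head := head) v u (k + 1) S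
    (fun U hU => hdicut U ⟨v, hU.1⟩ (hne U u hU.2.1) hU.2.2)
  have hJK : ∀ i j, Disjoint (J i) (K j) := by
    intro i j
    rw [Finset.disjoint_left]
    intro e he he'
    obtain ⟨U, hU, h1, h2, -⟩ := (hJm i).leaves he
    obtain ⟨W, hW, h3, h4, -⟩ := (hKm j).leaves he'
    rcases hmid with h | h | h
    · exact hW.2.1 (closed_reach hW.2.2 h hW.1)
    · exact hU.2.1 (closed_reach hU.2.2 h hU.1)
    · rcases h e (hJS i he) with h | h | h | h | h
      · exact h2 (closed_reach hU.2.2 h h1)
      · exact hW.2.1 (closed_reach hW.2.2 h h3)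
      · exact hU.2.1 (closed_reach hU.2.2 h h1)
      · exact h2 (closed_reach hU.2.2 h hU.1)
      · exact h4 (closed_reach hW.2.2 h hW.1)
  obtain ⟨f, σ, hfJ, hfK, hfG⟩ := colour (V := V) k J K hJd hKd hJK
    (fun E => Grp tail head S u v E ∨ Grp head tail S u v E)
    (by
      rintro E E' (hE | hE) (hE' | hE') e he he'
      · exact grp_unique hE hE' he he'
      · exact (grp_cross hcov hE hE' he he').elim
      · exact (grp_cross hcov hE' hE he' he).elim
      · exact grp_unique hE hE' he he')
    (by
      rintro E (⟨T, hT, hu, hv, rfl⟩ | ⟨T, hT, hu, hv, rfl⟩)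
      · have h1 := hdicut Tᶜ ⟨u, Finset.mem_compl.2 hu⟩ (fun h => by
            have := hT.1
            rw [Finset.compl_eq_univ_iff] at h
            rw [h] at this
            exact Finset.not_nonempty_empty this) (fun a ha => by
            rw [Finset.mem_compl] at ha ⊢
            exact fun h => ha (hT.2.1 a h))
        refine h1.trans (Finset.card_le_card fun a ha => ?_)
        rw [Finset.mem_filter, Finset.mem_compl, Finset.mem_compl, not_not] at ha
        exact mem_into.2 ha
      · have h1 := hdicut T hT.1 (hne T u hu) hT.2.1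
        refine h1.trans (Finset.card_le_card fun a ha => ?_)
        rw [Finset.mem_filter] at ha
        exact mem_into.2 ⟨ha.1, ha.2.2, ha.2.1⟩)
    (by
      rintro E (hE | hE) i
      · exact grp_card_le hcov hE (hJm i)
      · exact grp_card_le hcov'.swap hE.swap (hJm i).rev)
    (by
      rintro E (hE | hE) i
      · exact grp_card_le hcov.swap hE.swap (hKm i)
      · exact grp_card_le hcov' hE (hKm i).rev)
    (by
      rintro E (hE | hE) ⟨i, hi⟩ ⟨j, hj⟩
      · exact ⟨fun i' hi' => grp_single hcov hE (hJm i') (hKm j) hi' hj,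
          fun j' hj' => grp_single hcov.swap hE.swap (hKm j') (hJm i) hj' hi⟩
      · exact ⟨fun i' hi' => grp_single hcov'.swap hE.swap (hJm i').rev (hKm j).rev hi' hj,
          fun j' hj' => grp_single hcov' hE (hKm j').rev (hJm i).rev hj' hi⟩)
  refine ⟨f, fun i U hUne hUu hU => ?_⟩
  by_cases hu : u ∈ U <;> by_cases hv : v ∈ U
  · -- a sink component outside of `U`
    obtain ⟨B, hBU, hB⟩ := exists_sink (tail := tail) (head := head) _ Uᶜ rfl
      (by
        rw [Finset.nonempty_iff_ne_empty]
        exact fun h => hUu ((Finset.compl_eq_empty_iff U).1 h))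
      (by
        intro a ha
        rw [Finset.mem_compl] at ha ⊢
        exact fun h => ha (hU a h))
    have hE : Grp tail head S u v (into tail head S B) :=
      ⟨B, hB, fun h => (Finset.mem_compl.1 (hBU h)) hu, fun h => (Finset.mem_compl.1 (hBU h)) hv, rfl⟩
    obtain ⟨e, he, hei⟩ := hfG _ (Or.inl hE) i
    have h1 := grp_tail hcov hE he
    rw [mem_into] at he
    refine ⟨e, he.1, hei, ?_, Finset.mem_compl.1 (hBU he.2.2)⟩
    rcases h1 with h | h
    · exact closed_reach hU h.1 hu
    · exact closed_reach hU h.1 hv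
  · obtain ⟨e, he⟩ := (hJm i).1 U ⟨hu, hv, hU⟩
    rw [mem_out] at he
    exact ⟨e, hJS i he.1, hfJ i e he.1, he.2⟩
  · obtain ⟨e, he⟩ := (hKm (σ.symm i)).1 U ⟨hv, hu, hU⟩
    rw [mem_out] at he
    exact ⟨e, hKS _ he.1, by rw [hfK _ e he.1, Equiv.apply_symm_apply], he.2⟩
  · -- a source component inside of `U`
    obtain ⟨B, hBU, hB⟩ := exists_sink (tail := head) (head := tail) _ U rfl hUne hU
    have hE : Grp head tail S u v (into head tail S B) :=
      ⟨B, hB, fun h => hu (hBU h), fun h => hv (hBU h), rfl⟩
    obtain ⟨e, he, hei⟩ := hfG _ (Or.inr hE) i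
    have h1 := grp_tail hcov' hE he
    rw [mem_into] at he
    refine ⟨e, he.1, hei, hBU he.2.2, fun h => ?_⟩
    rcases h1 with h2 | h2
    · exact hu (closed_reach hU h2.rev.2 h)
    · exact hv (closed_reach hU h2.rev.2 h)

theorem result {V A : Type*} [Fintype V] [DecidableEq V] [Fintype A] [DecidableEq A]
    (tail head : A → V) (S : Finset A) (τ : ℕ) (hτ : 1 ≤ τ)
    (hdicut : ∀ U : Finset V, U.Nonempty → U ≠ Finset.univ →
      (∀ a : A, head a ∈ U → tail a ∈ U) →
      τ ≤ (S.filter (fun a => tail a ∈ U ∧ head a ∉ U)).card)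
    (u v : V)
    (huv : (∀ a ∈ S, tail a = u ∨ tail a = v ∨ head a = u ∨ head a = v) ∨
      ((∀ T : Finset V, IsSink tail head T → u ∉ T → v ∉ T → ∀ a ∈ S,
        tail a ∉ T → head a ∈ T → Strong tail head (tail a) u ∨ Strong tail head (tail a) v) ∧
      (∀ T : Finset V, IsSink head tail T → u ∉ T → v ∉ T → ∀ a ∈ S,
        tail a ∈ T → head a ∉ T → Strong tail head (head a) u ∨ Strong tail head (head a) v) ∧
      (Reach tail head u v ∨ Reach tail head v u ∨ ∀ a ∈ S,
        Reach tail head (head a) (tail a) ∨ Reach tail head u (tail a) ∨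
          Reach tail head v (tail a) ∨ Reach tail head (head a) u ∨
          Reach tail head (head a) v))) :
    ∃ f : A → Fin τ, ∀ i : Fin τ, ∀ U : Finset V, U.Nonempty → U ≠ Finset.univ →
      (∀ a : A, head a ∈ U → tail a ∈ U) →
      ∃ a ∈ S, f a = i ∧ tail a ∈ U ∧ head a ∉ U := by
  have hrefl : ∀ x y : V, x = y → Strong tail head x y := by
    rintro x y rfl
    exact ⟨Relation.ReflTransGen.refl, Relation.ReflTransGen.refl⟩
  rcases huv with h | ⟨h1, h2, h3⟩
  · refine general tail head S τ hτ hdicut u v ?_ ?_ (Or.inr (Or.inr ?_))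
    · intro T hT hu hv a ha _ h4
      rcases h a ha with h5 | h5 | h5 | h5
      · exact Or.inl (hrefl _ _ h5)
      · exact Or.inr (hrefl _ _ h5)
      · exact absurd (h5 ▸ h4) hu
      · exact absurd (h5 ▸ h4) hv
    · intro T hT hu hv a ha h4 _
      rcases h a ha with h5 | h5 | h5 | h5
      · exact absurd (h5 ▸ h4) hu
      · exact absurd (h5 ▸ h4) hv
      · exact Or.inl (hrefl _ _ h5)
      · exact Or.inr (hrefl _ _ h5)
    · intro a ha
      rcases h a ha with h5 | h5 | h5 | h5
      · exact Or.inr (Or.inl (hrefl _ _ h5).2)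
      · exact Or.inr (Or.inr (Or.inl (hrefl _ _ h5).2))
      · exact Or.inr (Or.inr (Or.inr (Or.inl (hrefl _ _ h5).1)))
      · exact Or.inr (Or.inr (Or.inr (Or.inr (hrefl _ _ h5).1)))
  · exact general tail head S τ hτ hdicut u v h1 h2 h3

end Pool.Agent.Results.MP_d1d15e_co.TwoHubs
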