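import Pool.Agent.Dts.Main

/-!
Decomposition of the weight-one arcs into dijoins if the digraph has at most two sink components or
at most two source components.
-/

open Pool.Agent.Dij

namespace Pool.Agent.Results.MP_d1d15e_co.TwoSinksAll

theorem reach_swap {V A : Type*} {tail head : A → V} {x y : V} (h : Reach tail head x y) :
    Reach head tail y x := by
  induction h with
  | refl => exact Relation.ReflTransGen.refl
  | tail _ hbc ih =>
    obtain ⟨a, h1, h2⟩ := hbc
    exact Relation.ReflTransGen.head ⟨a, h2, h1⟩ ih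

theorem result {V A : Type*} [Fintype V] [DecidableEq V] [Fintype A] [DecidableEq A]
    (tail head : A → V) (S : Finset A) (τ : ℕ) (hτ : 1 ≤ τ)
    (hdicut : ∀ U : Finset V, U.Nonempty → U ≠ Finset.univ →
      (∀ a : A, head a ∈ U → tail a ∈ U) →
      τ ≤ (S.filter (fun a => tail a ∈ U ∧ head a ∉ U)).card)
    (r t : V)
    (hrt : (∀ x : V, Reach tail head x r ∨ Reach tail head x t) ∨
      (∀ x : V, Reach tail head r x ∨ Reach tail head t x)) :
    ∃ f : A → Fin τ, ∀ i : Fin τ, ∀ U : Finset V, U.Nonempty → U ≠ Finset.univ →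
      (∀ a : A, head a ∈ U → tail a ∈ U) →
      ∃ a ∈ S, f a = i ∧ tail a ∈ U ∧ head a ∉ U := by
  rcases hrt with hrt | hrt
  · exact Pool.Agent.Dts.two_sinks tail head S τ hτ hdicut r t hrt
  · have hcompl : ∀ U : Finset V, U.Nonempty → U ≠ Finset.univ →
        (Uᶜ : Finset V).Nonempty ∧ Uᶜ ≠ Finset.univ := by
      intro U h1 h2
      refine ⟨?_, ?_⟩
      · rw [Finset.nonempty_iff_ne_empty]
        intro h
        exact h2 (by rw [← compl_compl U, h, Finset.compl_empty])
      · intro h
        rw [← compl_compl U, h, Finset.compl_univ] at h1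
        exact absurd h1 (by simp)
    obtain ⟨f, hf⟩ := Pool.Agent.Dts.two_sinks head tail S τ hτ (by
      intro U h1 h2 h3
      have h4 := hdicut Uᶜ (hcompl U h1 h2).1 (hcompl U h1 h2).2 (by
        intro a ha
        rw [Finset.mem_compl] at ha ⊢
        exact fun h => ha (h3 a h))
      refine h4.trans (Finset.card_le_card ?_)
      intro a ha
      rw [Finset.mem_filter, Finset.mem_compl, Finset.mem_compl, not_not] at ha
      rw [Finset.mem_filter]
      exact ⟨ha.1, ha.2.2, ha.2.1⟩) r t
      (fun x => (hrt x).imp reach_swap reach_swap)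
    refine ⟨f, fun i U h1 h2 h3 => ?_⟩
    obtain ⟨a, h4, h5, h6, h7⟩ := hf i Uᶜ (hcompl U h1 h2).1 (hcompl U h1 h2).2 (by
      intro a ha
      rw [Finset.mem_compl] at ha ⊢
      exact fun h => ha (h3 a h))
    rw [Finset.mem_compl] at h6 h7
    exact ⟨a, h4, h5, not_not.1 h7, h6⟩

end Pool.Agent.Results.MP_d1d15e_co.TwoSinksAll
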